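import Mathlib

set_option autoImplicit false
set_option linter.unusedSectionVars false

open Finset Filter Topology
open scoped Classical

namespace Pool.Agent.Results.MP_f40460_co.UniversalSequence

/-- `U` is a `k`-subtree of `T`: a set of `k` vertices which induces a connected subgraph. -/
def IsSubtree {V : Type} (T : SimpleGraph V) (k : ℕ) (U : Finset V) : Prop :=
  U.card = k ∧ (T.induce (U : Set V)).Connected

/-- `Z_k(T)`: the number of `k`-subtrees of `T`. -/
noncomputable def Z {V : Type} [Fintype V] (k : ℕ) (T : SimpleGraph V) : ℕ :=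
  (univ.filter fun U : Finset V => IsSubtree T k U).card

/-- `c(S,T)`: the number of `k`-subtrees `U` of `T` with `T[U]` isomorphic to `S`. -/
noncomputable def copies {V : Type} [Fintype V] {k : ℕ} (S : SimpleGraph (Fin k))
    (T : SimpleGraph V) : ℕ :=
  (univ.filter fun U : Finset V =>
    IsSubtree T k U ∧ Nonempty (T.induce (U : Set V) ≃g S)).card

/-- Finite trees on the vertex sets `Fin (m+1)`. -/
abbrev RT : Type := Σ m : ℕ, {S : SimpleGraph (Fin (m + 1)) // S.IsTree}

section Cat

variable {L : ℕ} (a : Fin L → RT)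

/-- vertices of the caterpillar of trees -/
abbrev Vx : Type := Σ i : Fin L, Fin ((a i).1 + 1)

/-- adjacency: inside the pending trees, and along the spine formed by the vertices `0` -/
inductive CatAdj : Vx a → Vx a → Prop
  | fib (i : Fin L) (x y : Fin ((a i).1 + 1)) (h : (a i).2.1.Adj x y) : CatAdj ⟨i, x⟩ ⟨i, y⟩
  | up (i j : Fin L) (h : i.val + 1 = j.val) : CatAdj ⟨i, 0⟩ ⟨j, 0⟩
  | dn (i j : Fin L) (h : i.val + 1 = j.val) : CatAdj ⟨j, 0⟩ ⟨i, 0⟩

theorem CatAdj.symm' {u v : Vx a} (h : CatAdj a u v) : CatAdj a v u := by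
  cases h with
  | fib i x y h => exact CatAdj.fib i y x h.symm
  | up i j h => exact CatAdj.dn i j h
  | dn i j h => exact CatAdj.up i j h

theorem CatAdj.ne' {u v : Vx a} (h : CatAdj a u v) : u ≠ v := by
  intro he
  cases h with
  | fib i x y h =>
    simp only [Sigma.mk.injEq, heq_eq_eq, true_and] at he
    exact h.ne he
  | up i j h =>
    have := congrArg (fun z : Vx a => z.1.val) he
    simp at this
    omega
  | dn i j h =>
    have := congrArg (fun z : Vx a => z.1.val) he
    simp at this
    omega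

/-- the caterpillar of trees -/
def Cat : SimpleGraph (Vx a) where
  Adj := CatAdj a
  symm := ⟨fun _ _ h => CatAdj.symm' a h⟩
  loopless := ⟨fun _ h => CatAdj.ne' a h rfl⟩

theorem cat_fib_iff (i : Fin L) (x y : Fin ((a i).1 + 1)) :
    (Cat a).Adj ⟨i, x⟩ ⟨i, y⟩ ↔ (a i).2.1.Adj x y := by
  constructor
  · intro h
    change CatAdj a _ _ at h
    cases h with
    | fib _ _ _ h => exact h
    | up _ _ h => omega
    | dn _ _ h => omega
  · intro h
    exact CatAdj.fib i x y h

/-- if a predicate is invariant along the edges of `G` it is invariant along reachability -/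
theorem inv_of_reachable {V : Type} {G : SimpleGraph V} {P : V → Prop}
    (hP : ∀ u v, G.Adj u v → (P u ↔ P v)) {u v : V} (h : G.Reachable u v) : P u ↔ P v := by
  obtain ⟨w⟩ := h
  induction w with
  | nil => exact Iff.rfl
  | cons h _ ih => exact (hP _ _ h).trans ih

theorem cat_acyclic : (Cat a).IsAcyclic := by
  rw [SimpleGraph.isAcyclic_iff_forall_adj_isBridge]
  intro u v huv
  rw [SimpleGraph.isBridge_iff]
  have huv' : CatAdj a u v := huv
  intro hr
  cases huv' with
  | fib i x y h =>
    have hac : (a i).2.1.IsAcyclic := (a i).2.2.isAcyclic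
    rw [SimpleGraph.isAcyclic_iff_forall_adj_isBridge] at hac
    have hb := hac h
    rw [SimpleGraph.isBridge_iff] at hb
    set R' := (a i).2.1.deleteEdges {s(x, y)} with hR'
    let Q : Fin ((a i).1 + 1) → Prop := fun z => R'.Reachable x z
    let P : Vx a → Prop := fun w => if hw : i = w.1 then Q (hw ▸ w.2) else Q 0
    have hPi : ∀ z, P ⟨i, z⟩ ↔ Q z := fun z => by simp [P]
    have hPn : ∀ (j : Fin L) z, i ≠ j → (P ⟨j, z⟩ ↔ Q 0) := fun j z hj => by simp [P, hj]
    have hP0 : ∀ (j : Fin L), (P ⟨j, 0⟩ ↔ Q 0) := by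
      intro j
      by_cases hj : i = j
      · subst hj; exact hPi 0
      · exact hPn j 0 hj
    have key : P ⟨i, x⟩ ↔ P ⟨i, y⟩ := by
      refine inv_of_reachable ?_ hr
      intro p q hpq
      rw [SimpleGraph.deleteEdges_adj] at hpq
      obtain ⟨h1, h2⟩ := hpq
      have h1' : CatAdj a p q := h1
      cases h1' with
      | fib j z w h =>
        by_cases hj : i = j
        · subst hj
          rw [hPi, hPi]
          have hadj : R'.Adj z w := by
            rw [hR', SimpleGraph.deleteEdges_adj]
            refine ⟨h, ?_⟩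
            intro h4
            apply h2
            simp only [Set.mem_singleton_iff, Sym2.eq_iff] at h4 ⊢
            rcases h4 with ⟨rfl, rfl⟩ | ⟨rfl, rfl⟩
            · left; exact ⟨rfl, rfl⟩
            · right; exact ⟨rfl, rfl⟩
          exact ⟨fun h => h.trans hadj.reachable, fun h => h.trans hadj.symm.reachable⟩
        · rw [hPn j z hj, hPn j w hj]
      | up j k h => rw [hP0, hP0]
      | dn j k h => rw [hP0, hP0]
    rw [hPi, hPi] at key
    exact hb (key.1 (SimpleGraph.Reachable.refl _))
  | up i j h =>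
    have key : (fun w : Vx a => w.1.val ≤ i.val) ⟨i, 0⟩ ↔ (fun w : Vx a => w.1.val ≤ i.val) ⟨j, 0⟩ := by
      refine inv_of_reachable (P := fun w : Vx a => w.1.val ≤ i.val) ?_ hr
      intro p q hpq
      rw [SimpleGraph.deleteEdges_adj] at hpq
      obtain ⟨h1, h2⟩ := hpq
      have h1' : CatAdj a p q := h1
      cases h1' with
      | fib k z w h => exact Iff.rfl
      | up k l h' =>
        by_cases hk : k = i
        · exfalso
          subst hk
          have : l = j := Fin.ext (by omega)
          subst this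
          apply h2
          simp
        · have : k.val ≠ i.val := fun h => hk (Fin.ext h)
          simp only
          omega
      | dn k l h' =>
        by_cases hk : k = i
        · exfalso
          subst hk
          have : l = j := Fin.ext (by omega)
          subst this
          apply h2
          simp [Sym2.eq_swap]
        · have : k.val ≠ i.val := fun h => hk (Fin.ext h)
          simp only
          omega
    simp only at key
    omega
  | dn j i h =>
    have key : (fun w : Vx a => w.1.val ≤ j.val) ⟨i, 0⟩ ↔ (fun w : Vx a => w.1.val ≤ j.val) ⟨j, 0⟩ := by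
      refine inv_of_reachable (P := fun w : Vx a => w.1.val ≤ j.val) ?_ hr
      intro p q hpq
      rw [SimpleGraph.deleteEdges_adj] at hpq
      obtain ⟨h1, h2⟩ := hpq
      have h1' : CatAdj a p q := h1
      cases h1' with
      | fib k z w h => exact Iff.rfl
      | up k l h' =>
        by_cases hk : k = j
        · exfalso
          subst hk
          have : l = i := Fin.ext (by omega)
          subst this
          apply h2
          simp [Sym2.eq_swap]
        · have : k.val ≠ j.val := fun h => hk (Fin.ext h)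
          simp only
          omega
      | dn k l h' =>
        by_cases hk : k = j
        · exfalso
          subst hk
          have : l = i := Fin.ext (by omega)
          subst this
          apply h2
          simp
        · have : k.val ≠ j.val := fun h => hk (Fin.ext h)
          simp only
          omega
    simp only at key
    omega

theorem reach_fib (i : Fin L) (x y : Fin ((a i).1 + 1)) :
    (Cat a).Reachable ⟨i, x⟩ ⟨i, y⟩ := by
  have h := (a i).2.2.connected.preconnected x y
  obtain ⟨w⟩ := h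
  induction w with
  | nil => exact SimpleGraph.Reachable.refl _
  | cons h _ ih => exact ((cat_fib_iff a i _ _).2 h).reachable.trans ih

theorem reach_spine (hL : 0 < L) : ∀ (n : ℕ) (hn : n < L),
    (Cat a).Reachable ⟨⟨0, hL⟩, 0⟩ ⟨⟨n, hn⟩, 0⟩ := by
  intro n
  induction n with
  | zero => intro hn; exact SimpleGraph.Reachable.refl _
  | succ n ih =>
    intro hn
    refine (ih (by omega)).trans ?_
    have : (Cat a).Adj ⟨⟨n, by omega⟩, 0⟩ ⟨⟨n + 1, hn⟩, 0⟩ := CatAdj.up _ _ rfl
    exact this.reachable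

theorem cat_tree (hL : 0 < L) : (Cat a).IsTree := by
  refine ⟨?_, cat_acyclic a⟩
  have hb : ∀ v : Vx a, (Cat a).Reachable ⟨⟨0, hL⟩, 0⟩ v := by
    rintro ⟨i, x⟩
    exact (reach_spine a hL i.val i.isLt).trans (reach_fib a i 0 x)
  have : Nonempty (Vx a) := ⟨⟨⟨0, hL⟩, 0⟩⟩
  exact SimpleGraph.Connected.mk (fun u v => (hb u).symm.trans (hb v))

end Cat

section Count

variable {L : ℕ} (a : Fin L → RT)

theorem adj_pos {u v : Vx a} (h : (Cat a).Adj u v) :
    u.1.val ≤ v.1.val + 1 ∧ v.1.val ≤ u.1.val + 1 := by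
  have h' : CatAdj a u v := h
  cases h' with
  | fib i x y h => simp
  | up i j h => simp only; omega
  | dn i j h => simp only; omega

theorem walk_pos {U : Set (Vx a)} {u v : U} (w : ((Cat a).induce U).Walk u v) :
    u.1.1.val ≤ v.1.1.val + w.length := by
  induction w with
  | nil => simp
  | cons h _ ih =>
    rw [SimpleGraph.Walk.length_cons]
    have := adj_pos a (SimpleGraph.induce_adj.1 h)
    omega

/-- in a `k`-subtree all positions differ by at most `k-1` -/
theorem subtree_pos {k : ℕ} {U : Finset (Vx a)} (hU : IsSubtree (Cat a) k U) {u v : Vx a}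
    (hu : u ∈ U) (hv : v ∈ U) : u.1.val < v.1.val + k := by
  obtain ⟨w⟩ := hU.2.preconnected ⟨u, by simpa using hu⟩ ⟨v, by simpa using hv⟩
  have h1 := walk_pos a (w.toPath).1
  have h2 := w.toPath.2.length_lt
  have h3 : Fintype.card ((U : Finset (Vx a)) : Set (Vx a)) = k := by
    simpa using hU.1
  rw [h3] at h2
  simp only at h1
  omega

/-- window of positions -/
def Iw (L k : ℕ) (p : Fin L) : Finset (Fin L) :=
  univ.filter fun i => p.val ≤ i.val ∧ i.val < p.val + k

theorem card_Iw (k : ℕ) (p : Fin L) : (Iw L k p).card ≤ k := by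
  have h : ((Iw L k p).map Fin.valEmbedding) ⊆ Finset.Ico p.val (p.val + k) := by
    intro x hx
    simp only [Iw, Finset.mem_map, mem_filter, mem_univ, true_and, Fin.valEmbedding_apply] at hx
    obtain ⟨i, hi, rfl⟩ := hx
    exact Finset.mem_Ico.2 hi
  have := Finset.card_le_card h
  rw [Finset.card_map, Nat.card_Ico] at this
  omega

theorem card_Iw' (k : ℕ) (i : Fin L) : (univ.filter fun p => i ∈ Iw L k p).card ≤ k := by
  have h : ((univ.filter fun p => i ∈ Iw L k p).map Fin.valEmbedding)
      ⊆ Finset.Ico (i.val + 1 - k) (i.val + 1) := by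
    intro x hx
    simp only [Iw, Finset.mem_map, mem_filter, mem_univ, true_and, Fin.valEmbedding_apply] at hx
    obtain ⟨j, hj, rfl⟩ := hx
    rw [Finset.mem_Ico]
    omega
  have := Finset.card_le_card h
  rw [Finset.card_map, Nat.card_Ico] at this
  omega

/-- upper bound for the number of `k`-subtrees -/
theorem Z_le (k : ℕ) (hk : 1 ≤ k) :
    Z k (Cat a) ≤ k * ∑ i, 2 ^ (k * ((a i).1 + 1)) := by
  let W : Fin L → Finset (Vx a) := fun p => (Iw L k p).sigma fun _ => univ
  have hsub : (univ.filter fun U : Finset (Vx a) => IsSubtree (Cat a) k U)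
      ⊆ univ.biUnion fun p => (W p).powerset := by
    intro U hU
    simp only [mem_filter, mem_univ, true_and] at hU
    have hne : U.Nonempty := by
      rw [← Finset.card_pos, hU.1]; omega
    obtain ⟨u, hu, hmin⟩ := Finset.exists_min_image U (fun u => u.1.val) hne
    rw [Finset.mem_biUnion]
    refine ⟨u.1, mem_univ _, ?_⟩
    rw [Finset.mem_powerset]
    intro v hv
    simp only [W, Finset.mem_sigma, mem_univ, and_true, Iw, mem_filter, true_and]
    exact ⟨hmin v hv, subtree_pos a hU hv hu⟩
  have hW : ∀ p : Fin L, 2 ^ (W p).card ≤ ∑ i ∈ Iw L k p, 2 ^ (k * ((a i).1 + 1)) := by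
    intro p
    have hp : p ∈ Iw L k p := by
      simp only [Iw, mem_filter, mem_univ, true_and]
      omega
    obtain ⟨j, hj, hmax⟩ := Finset.exists_max_image (Iw L k p) (fun i => (a i).1) ⟨p, hp⟩
    have hc : (W p).card ≤ k * ((a j).1 + 1) := by
      simp only [W, Finset.card_sigma, Finset.card_univ, Fintype.card_fin]
      calc ∑ i ∈ Iw L k p, ((a i).1 + 1) ≤ ∑ _i ∈ Iw L k p, ((a j).1 + 1) :=
            Finset.sum_le_sum fun i hi => by have := hmax i hi; omega
        _ = (Iw L k p).card * ((a j).1 + 1) := by rw [Finset.sum_const, smul_eq_mul]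
        _ ≤ k * ((a j).1 + 1) := Nat.mul_le_mul_right _ (card_Iw k p)
    calc 2 ^ (W p).card ≤ 2 ^ (k * ((a j).1 + 1)) := Nat.pow_le_pow_right (by norm_num) hc
      _ ≤ ∑ i ∈ Iw L k p, 2 ^ (k * ((a i).1 + 1)) :=
        Finset.single_le_sum (f := fun i => 2 ^ (k * ((a i).1 + 1))) (fun _ _ => Nat.zero_le _) hj
  calc Z k (Cat a) ≤ (univ.biUnion fun p => (W p).powerset).card := Finset.card_le_card hsub
    _ ≤ ∑ p, ((W p).powerset).card := Finset.card_biUnion_le
    _ = ∑ p, 2 ^ (W p).card := by simp only [Finset.card_powerset]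
    _ ≤ ∑ p, ∑ i ∈ Iw L k p, 2 ^ (k * ((a i).1 + 1)) := Finset.sum_le_sum fun p _ => hW p
    _ = ∑ p : Fin L, ∑ i : Fin L, if i ∈ Iw L k p then 2 ^ (k * ((a i).1 + 1)) else 0 := by
        refine Finset.sum_congr rfl fun p _ => ?_
        rw [Finset.sum_ite_mem, Finset.univ_inter]
    _ = ∑ i : Fin L, ∑ p : Fin L, if i ∈ Iw L k p then 2 ^ (k * ((a i).1 + 1)) else 0 :=
        Finset.sum_comm
    _ = ∑ i : Fin L, (univ.filter fun p => i ∈ Iw L k p).card * 2 ^ (k * ((a i).1 + 1)) := by
        refine Finset.sum_congr rfl fun i _ => ?_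
        rw [← Finset.sum_filter, Finset.sum_const, smul_eq_mul]
    _ ≤ ∑ i : Fin L, k * 2 ^ (k * ((a i).1 + 1)) :=
        Finset.sum_le_sum fun i _ => Nat.mul_le_mul_right _ (card_Iw' k i)
    _ = k * ∑ i, 2 ^ (k * ((a i).1 + 1)) := by rw [Finset.mul_sum]

/-- the vertex set of the pending tree at `i` -/
noncomputable def Fib (i : Fin L) : Finset (Vx a) := univ.map ⟨Sigma.mk i, sigma_mk_injective⟩

theorem mem_Fib (i : Fin L) (v : Vx a) : v ∈ Fib a i ↔ v.1 = i := by
  simp only [Fib, Finset.mem_map, mem_univ, true_and, Function.Embedding.coeFn_mk]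
  constructor
  · rintro ⟨x, rfl⟩; rfl
  · rcases v with ⟨j, y⟩
    rintro rfl
    exact ⟨y, rfl⟩

theorem card_Fib (i : Fin L) : (Fib a i).card = (a i).1 + 1 := by
  simp [Fib]

/-- the fibre is a copy of the tree -/
noncomputable def fibIso (i : Fin L) : (a i).2.1 ≃g (Cat a).induce (Fib a i : Set (Vx a)) where
  toEquiv := Equiv.ofBijective
    (fun x => (⟨⟨i, x⟩, by simp [mem_Fib]⟩ : ((Fib a i : Finset (Vx a)) : Set (Vx a)))) (by
      constructor
      · intro x y h
        simpa using h
      · rintro ⟨⟨j, y⟩, hj⟩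
        have : j = i := by simpa [mem_Fib] using hj
        subst this
        exact ⟨y, rfl⟩)
  map_rel_iff' := by
    intro x y
    simp only [SimpleGraph.comap_adj, Function.Embedding.subtype_apply]
    exact cat_fib_iff a i x y

theorem copies_ge {m : ℕ} (S : SimpleGraph (Fin (m + 1))) (hS : S.IsTree) :
    (univ.filter fun i : Fin L => a i = ⟨m, S, hS⟩).card ≤ copies S (Cat a) := by
  unfold copies
  refine Finset.card_le_card_of_injOn (fun i => Fib a i) ?_ ?_
  · intro i hi
    simp only [coe_filter, mem_univ, true_and, Set.mem_ofPred_eq] at hi ⊢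
    have e := fibIso a i
    have hi1 : (a i).1 = m := by rw [hi]
    refine ⟨⟨by rw [card_Fib, hi1], ?_⟩, ?_⟩
    · exact (e.connected_iff).1 (a i).2.2.connected
    · have : ∀ (r : RT) (hr : r = ⟨m, S, hS⟩), Nonempty (r.2.1 ≃g S) := by
        rintro r rfl
        exact ⟨SimpleGraph.Iso.refl⟩
      obtain ⟨f⟩ := this (a i) hi
      exact ⟨e.symm.trans f⟩
  · intro i _ j _ hij
    have h1 : (⟨i, 0⟩ : Vx a) ∈ Fib a i := by simp [mem_Fib]
    have h2 : (⟨i, 0⟩ : Vx a) ∈ Fib a j := by
      have : Fib a i = Fib a j := hij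
      rw [← this]; exact h1
    simpa [mem_Fib] using h2

end Count


section Main

instance : Countable RT := by
  unfold RT
  infer_instance

/-- the one-vertex tree -/
def pt : RT := ⟨0, ⟨⊥, by
  have : Nonempty (Fin (0 + 1)) := ⟨0⟩
  have : Subsingleton (Fin (0 + 1)) := inferInstanceAs (Subsingleton (Fin 1))
  exact SimpleGraph.IsTree.of_subsingleton⟩⟩

instance : Nonempty RT := ⟨pt⟩

/-- an enumeration of all finite trees -/
noncomputable def enum : ℕ → RT := (exists_surjective_nat RT).choose

theorem enum_surj : Function.Surjective enum := (exists_surjective_nat RT).choose_spec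

/-- the tree with index `j` : of size at most `log₂ (j+2)` -/
noncomputable def tr (j : ℕ) : RT :=
  if (enum (Nat.unpair j).1).1 + 1 ≤ Nat.log 2 (j + 2) then enum (Nat.unpair j).1 else pt

theorem tr_size (j : ℕ) : 2 ^ ((tr j).1 + 1) ≤ j + 2 := by
  have h1 : (tr j).1 + 1 ≤ Nat.log 2 (j + 2) := by
    unfold tr
    split_ifs with h
    · exact h
    · have : 1 ≤ Nat.log 2 (j + 2) := by
        exact Nat.le_log_of_pow_le (by norm_num) (by omega)
      simpa [pt] using this
  calc 2 ^ ((tr j).1 + 1) ≤ 2 ^ Nat.log 2 (j + 2) := Nat.pow_le_pow_right (by norm_num) h1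
    _ ≤ j + 2 := Nat.pow_log_le_self 2 (by omega)

theorem tr_surj (x : RT) : ∃ j, tr j = x := by
  obtain ⟨i, hi⟩ := enum_surj x
  refine ⟨Nat.pair i (2 ^ (x.1 + 1)), ?_⟩
  unfold tr
  rw [Nat.unpair_pair]
  simp only [hi]
  rw [if_pos]
  have h1 : 2 ^ (x.1 + 1) ≤ Nat.pair i (2 ^ (x.1 + 1)) + 2 := by
    have := Nat.right_le_pair i (2 ^ (x.1 + 1))
    omega
  exact Nat.le_log_of_pow_le (by norm_num) h1

/-- index set of the pending trees of the `n`-th tree: `2^(n-j)` copies of the tree `j` -/
abbrev Pn (n : ℕ) : Type := Σ j : Fin (n + 1), Fin (2 ^ (n - j.val))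

noncomputable def en (n : ℕ) : Fin (Fintype.card (Pn n)) ≃ Pn n := (Fintype.equivFin (Pn n)).symm

noncomputable def an (n : ℕ) : Fin (Fintype.card (Pn n)) → RT := fun i => tr ((en n i).1 : ℕ)

theorem card_Pn (n : ℕ) : 2 ^ n ≤ Fintype.card (Pn n) := by
  rw [Fintype.card_sigma]
  simp only [Fintype.card_fin]
  have := Finset.single_le_sum (f := fun j : Fin (n + 1) => 2 ^ (n - j.val))
    (fun _ _ => Nat.zero_le _) (Finset.mem_univ (0 : Fin (n + 1)))
  simpa using this

theorem summ (k : ℕ) : Summable fun j : ℕ => ((j : ℝ) + 2) ^ k / 2 ^ j := by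
  have h := summable_pow_mul_geometric_of_norm_lt_one (R := ℝ) k (r := 1 / 2) (by norm_num)
  have h2 := (summable_nat_add_iff (f := fun n : ℕ => (n : ℝ) ^ k * (1 / 2) ^ n) 2).2 h
  have h3 := h2.mul_left 4
  refine h3.congr fun j => ?_
  push_cast
  rw [pow_add, one_div, inv_pow, inv_pow]
  field_simp
  ring

noncomputable def Ck (k : ℕ) : ℝ := ∑' j : ℕ, ((j : ℝ) + 2) ^ k / 2 ^ j

theorem sum_le (k n : ℕ) :
    ((∑ i, 2 ^ (k * ((an n i).1 + 1)) : ℕ) : ℝ) ≤ 2 ^ n * Ck k := by
  have h1 : ∑ i, 2 ^ (k * ((an n i).1 + 1))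
      = ∑ q : Pn n, 2 ^ (k * ((tr (q.1 : ℕ)).1 + 1)) :=
    (en n).sum_comp (fun q : Pn n => 2 ^ (k * ((tr (q.1 : ℕ)).1 + 1)))
  rw [h1, Fintype.sum_sigma]
  simp only [Finset.sum_const, Finset.card_univ, Fintype.card_fin, smul_eq_mul]
  rw [Fin.sum_univ_eq_sum_range (fun j => 2 ^ (n - j) * 2 ^ (k * ((tr j).1 + 1))) (n + 1)]
  push_cast
  have h2 : ∀ j ∈ Finset.range (n + 1), (2 : ℝ) ^ (n - j) * 2 ^ (k * ((tr j).1 + 1))
      ≤ 2 ^ n * (((j : ℝ) + 2) ^ k / 2 ^ j) := by
    intro j hj
    have hj' : j ≤ n := by simpa [Nat.lt_succ_iff] using hj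
    have h3 : (2 : ℝ) ^ (n - j) = 2 ^ n / 2 ^ j := by
      rw [eq_div_iff (by positivity), ← pow_add, Nat.sub_add_cancel hj']
    have h4 : (2 : ℝ) ^ (k * ((tr j).1 + 1)) ≤ ((j : ℝ) + 2) ^ k := by
      rw [mul_comm, pow_mul]
      apply pow_le_pow_left₀ (by positivity)
      exact_mod_cast tr_size j
    rw [h3]
    calc (2 : ℝ) ^ n / 2 ^ j * 2 ^ (k * ((tr j).1 + 1))
        ≤ 2 ^ n / 2 ^ j * ((j : ℝ) + 2) ^ k := by gcongr
      _ = 2 ^ n * (((j : ℝ) + 2) ^ k / 2 ^ j) := by ring
  refine (Finset.sum_le_sum h2).trans ?_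
  rw [← Finset.mul_sum]
  refine mul_le_mul_of_nonneg_left ?_ (by positivity)
  exact (summ k).sum_le_tsum _ (fun j _ => by positivity)

theorem count_ge (n j₀ : ℕ) (hj : j₀ ≤ n) (x : RT) (hx : tr j₀ = x) :
    2 ^ (n - j₀) ≤ (univ.filter fun i => an n i = x).card := by
  have h : (univ : Finset (Fin (2 ^ (n - j₀)))).card ≤ (univ.filter fun i => an n i = x).card := by
    refine Finset.card_le_card_of_injOn
      (fun t => (en n).symm ⟨⟨j₀, by omega⟩, t⟩) ?_ ?_
    · intro t _
      rw [Finset.mem_coe, Finset.mem_filter]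
      refine ⟨mem_univ _, ?_⟩
      simp only [an, Equiv.apply_symm_apply]
      exact hx
    · intro t _ t' _ h
      have := (en n).symm.injective h
      simpa using this
  simpa using h

/-- There is one sequence of finite trees `T n` which is `k`-universal for every `k ≥ 1`: for each
`k`, `T n` has at least `k` vertices for all large `n`, and for every tree `S` on `k` vertices the
proportion of the copies of `S` among the `k`-subtrees of `T n` has positive `liminf`. -/
theorem result :
    ∃ (V : ℕ → Type) (_ : ∀ n, Fintype (V n)) (T : ∀ n, SimpleGraph (V n)),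
      (∀ n, (T n).IsTree) ∧
      ∀ k : ℕ, 1 ≤ k →
        (∀ᶠ n in atTop, k ≤ Fintype.card (V n)) ∧
        ∀ S : SimpleGraph (Fin k), S.IsTree →
          0 < liminf (fun n => (copies S (T n) : ℝ) / (Z k (T n) : ℝ)) atTop := by
  refine ⟨fun n => Vx (an n), fun n => inferInstance, fun n => Cat (an n), ?_, ?_⟩
  · intro n
    exact cat_tree (an n) (lt_of_lt_of_le (by positivity) (card_Pn n))
  · intro k hk
    constructor
    · filter_upwards [eventually_ge_atTop k] with n hn
      have h1 : Fintype.card (Fin (Fintype.card (Pn n))) ≤ Fintype.card (Vx (an n)) :=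
        Fintype.card_le_of_injective (fun i => (⟨i, 0⟩ : Vx (an n))) (by
          intro i j h
          exact congrArg Sigma.fst h)
      rw [Fintype.card_fin] at h1
      have h2 := card_Pn n
      have h3 : n < 2 ^ n := Nat.lt_two_pow_self
      omega
    · intro S hS
      obtain ⟨m, rfl⟩ : ∃ m, k = m + 1 := ⟨k - 1, by omega⟩
      obtain ⟨j₀, hj₀⟩ := tr_surj ⟨m, S, hS⟩
      set c : ℝ := 1 / ((m + 1 : ℕ) * 2 ^ j₀ * Ck (m + 1)) with hc
      have hCk : 0 < Ck (m + 1) := by
        have : (fun j : ℕ => ((j : ℝ) + 2) ^ (m + 1) / 2 ^ j) 0 ≤ Ck (m + 1) :=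
          (summ (m + 1)).le_tsum 0 (fun j _ => by positivity)
        refine lt_of_lt_of_le ?_ this
        positivity
      have hc0 : 0 < c := by positivity
      have hev : ∀ᶠ n in atTop, c ≤ (copies S (Cat (an n)) : ℝ) / (Z (m + 1) (Cat (an n)) : ℝ) := by
        filter_upwards [eventually_ge_atTop j₀] with n hn
        have h1 := (count_ge n j₀ hn _ hj₀).trans (copies_ge (an n) S hS)
        have h2 := Z_le (an n) (m + 1) hk
        have h3 := sum_le (m + 1) n
        have h4 : copies S (Cat (an n)) ≤ Z (m + 1) (Cat (an n)) := by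
          unfold copies Z
          refine Finset.card_le_card ?_
          intro U hU
          simp only [mem_filter, mem_univ, true_and] at hU ⊢
          exact hU.1
        have h5 : (0 : ℝ) < Z (m + 1) (Cat (an n)) := by
          have : 0 < Z (m + 1) (Cat (an n)) :=
            lt_of_lt_of_le (by positivity) (h1.trans h4)
          exact_mod_cast this
        rw [le_div_iff₀ h5]
        have h6 : (Z (m + 1) (Cat (an n)) : ℝ) ≤ (m + 1 : ℕ) * (2 ^ n * Ck (m + 1)) := by
          calc (Z (m + 1) (Cat (an n)) : ℝ)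
              ≤ (((m + 1) * ∑ i, 2 ^ ((m + 1) * ((an n i).1 + 1)) : ℕ) : ℝ) := by exact_mod_cast h2
            _ = (m + 1 : ℕ) * ((∑ i, 2 ^ ((m + 1) * ((an n i).1 + 1)) : ℕ) : ℝ) := by push_cast; ring
            _ ≤ (m + 1 : ℕ) * (2 ^ n * Ck (m + 1)) := by gcongr
        have h7 : (2 : ℝ) ^ (n - j₀) ≤ copies S (Cat (an n)) := by exact_mod_cast h1
        calc c * (Z (m + 1) (Cat (an n)) : ℝ)
            ≤ c * ((m + 1 : ℕ) * (2 ^ n * Ck (m + 1))) := by gcongr
          _ = 2 ^ n / 2 ^ j₀ := by
              rw [hc]; field_simp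
          _ = 2 ^ (n - j₀) := by
              rw [div_eq_iff (by positivity), ← pow_add, Nat.sub_add_cancel hn]
          _ ≤ _ := h7
      refine lt_of_lt_of_le hc0 (le_liminf_of_le ?_ hev)
      refine isCoboundedUnder_ge_of_le atTop (x := 1) ?_
      intro n
      apply div_le_one_of_le₀ _ (by positivity)
      have : copies S (Cat (an n)) ≤ Z (m + 1) (Cat (an n)) := by
        unfold copies Z
        refine Finset.card_le_card ?_
        intro U hU
        simp only [mem_filter, mem_univ, true_and] at hU ⊢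
        exact hU.1
      exact_mod_cast this

end Main


end Pool.Agent.Results.MP_f40460_co.UniversalSequence
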